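import Mathlib

/-!
# FA1: convex combinations of a bounded pointwise null sequence

`K` compact Hausdorff, `g n` bounded in `C(K, ℝ)`, `g n → 0` pointwise.  Then convex combinations of
the `|g n|` are uniformly small.
-/

namespace Pool.Agent.Work.MP_052a41_ce_h82

open Filter Topology MeasureTheory CompactlySupported

/-- a positive functional on `C(K, ℝ)` tends to `0` along bounded pointwise null sequences. -/
theorem positive_tendsto {K : Type*} [TopologicalSpace K] [CompactSpace K] [T2Space K]
    (f : C(K, ℝ) →L[ℝ] ℝ) (hf : ∀ h : C(K, ℝ), (∀ x, 0 ≤ h x) → 0 ≤ f h)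
    (g : ℕ → C(K, ℝ)) (M : ℝ) (hM : ∀ n x, |g n x| ≤ M)
    (h0 : ∀ x, Tendsto (fun n => g n x) atTop (𝓝 0)) :
    Tendsto (fun n => f (g n)) atTop (𝓝 0) := by
  classical
  let _ : MeasurableSpace K := borel K
  have : BorelSpace K := ⟨rfl⟩
  let Λ : C_c(K, ℝ) →ₚ[ℝ] ℝ :=
  { toFun := fun h => f h.toContinuousMap
    map_add' := fun a b => by
      rw [← map_add]; rfl
    map_smul' := fun c a => by
      rw [← map_smul]; rfl
    monotone' := fun a b hab => by
      have := hf (b.toContinuousMap - a.toContinuousMap) (fun x => by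
        have := hab x
        simpa using this)
      rw [map_sub] at this
      exact sub_nonneg.mp this }
  have hint : ∀ n, ∫ x, g n x ∂(RealRMK.rieszMeasure Λ) = f (g n) := by
    intro n
    exact RealRMK.integral_rieszMeasure Λ
      ⟨g n, HasCompactSupport.of_compactSpace _⟩
  simp_rw [← hint]
  have := tendsto_integral_of_dominated_convergence (μ := RealRMK.rieszMeasure Λ)
    (F := fun n x => g n x) (f := fun _ => 0) (fun _ => M)
    (fun n => (g n).continuous.aestronglyMeasurable)
    (integrable_const _) (fun n => Eventually.of_forall (fun x => by simpa using hM n x))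
    (Eventually.of_forall h0)
  simpa using this

/-- **FA1**. -/
theorem exists_convex_small {K : Type*} [TopologicalSpace K] [CompactSpace K] [T2Space K]
    (g : ℕ → C(K, ℝ)) (M : ℝ) (hM : ∀ n x, |g n x| ≤ M)
    (h0 : ∀ x, Tendsto (fun n => g n x) atTop (𝓝 0)) {ε : ℝ} (hε : 0 < ε) :
    ∃ (s : Finset ℕ) (c : ℕ → ℝ), (∀ n ∈ s, 0 ≤ c n) ∧ ∑ n ∈ s, c n = 1 ∧
      ∀ x, ∑ n ∈ s, c n * |g n x| < ε := by
  by_contra hcon
  push Not at hcon
  set O : Set C(K, ℝ) := {h | ∀ x, h x < ε} with hO
  have hOopen : IsOpen O := by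
    have : O = {h : C(K, ℝ) | Set.MapsTo h Set.univ (Set.Iio ε)} := by
      ext h; simp [hO, Set.MapsTo]
    rw [this]
    exact ContinuousMap.isOpen_setOf_mapsTo isCompact_univ isOpen_Iio
  have hOconv : Convex ℝ O := by
    intro a ha b hb p q hp hq hpq x
    have h1 := ha x
    have h2 := hb x
    simp only [ContinuousMap.add_apply, ContinuousMap.smul_apply, smul_eq_mul]
    rcases hp.eq_or_lt with rfl | hp'
    · have : q = 1 := by linarith
      subst this; linarith
    · nlinarith [mul_lt_mul_of_pos_left h1 hp', mul_le_mul_of_nonneg_left h2.le hq]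
  have hdisj : Disjoint O (convexHull ℝ (Set.range fun n => |g n|)) := by
    rw [Set.disjoint_left]
    intro h hh hc
    rw [convexHull_eq] at hc
    obtain ⟨ι, t, w, z, hw, hw1, hz, hcen⟩ := hc
    choose! φ hφ using hz
    obtain ⟨x, hx⟩ := hcon (t.image φ) (fun n => ∑ i ∈ t with φ i = n, w i)
      (fun n _ => Finset.sum_nonneg (fun i hi => hw i (Finset.mem_filter.mp hi).1))
      (by
        rw [← hw1]
        exact Finset.sum_fiberwise_of_maps_to (fun i hi => Finset.mem_image_of_mem φ hi) w)
    have hval : h x = ∑ i ∈ t, w i * |g (φ i) x| := by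
      rw [← hcen, Finset.centerMass_eq_of_sum_1 _ _ hw1]
      rw [ContinuousMap.sum_apply]
      refine Finset.sum_congr rfl (fun i hi => ?_)
      rw [← hφ i hi]
      simp
    have h2 : ∑ n ∈ t.image φ, (∑ i ∈ t with φ i = n, w i) * |g n x| =
        ∑ i ∈ t, w i * |g (φ i) x| := by
      rw [← Finset.sum_fiberwise_of_maps_to (g := φ) (t := t.image φ)
        (fun i hi => Finset.mem_image_of_mem φ hi)]
      refine Finset.sum_congr rfl (fun n _ => ?_)
      rw [Finset.sum_mul]
      refine Finset.sum_congr rfl (fun i hi => ?_)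
      rw [(Finset.mem_filter.mp hi).2]
    rw [h2, ← hval] at hx
    exact absurd (hh x) (not_lt.mpr hx)
  obtain ⟨f, u, hfu, hfc⟩ := geometric_hahn_banach_open hOconv hOopen (convex_convexHull ℝ _) hdisj
  have hu : 0 < u := by
    have := hfu 0 (fun x => by simpa using hε)
    simpa using this
  have hpos : ∀ h : C(K, ℝ), (∀ x, 0 ≤ h x) → 0 ≤ f h := by
    intro h hh
    by_contra hneg
    push Not at hneg
    obtain ⟨t, ht⟩ := exists_nat_gt (u / (- f h))
    have h3 : (-(t : ℝ)) • h ∈ O := by
      intro x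
      have := hh x
      simp only [ContinuousMap.smul_apply, smul_eq_mul]
      nlinarith [Nat.cast_nonneg (α := ℝ) t]
    have h4 := hfu _ h3
    rw [map_smul, smul_eq_mul] at h4
    rw [div_lt_iff₀ (by linarith)] at ht
    linarith
  have hlim := positive_tendsto f hpos (fun n => |g n|) M (fun n x => by simpa using hM n x)
    (fun x => by simpa using (h0 x).abs)
  have hge : ∀ n, u ≤ f |g n| := fun n => hfc _ (subset_convexHull ℝ _ ⟨n, rfl⟩)
  have := ge_of_tendsto' hlim hge
  linarith

end Pool.Agent.Work.MP_052a41_ce_h82
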