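import Pool.Agent.Work.MP_052a41_ce_h82.FA1

/-!
# FA2: `C([0,1])` contains an isometric copy of the `ℓ₁` basis
-/

namespace Pool.Agent.Work.MP_052a41_ce_h82

open Filter Topology

/-- the periodic function: `-1` on `[1/5, 2/5]`, `1` on `[3/5, 4/5]`. -/
noncomputable def per (x : ℝ) : ℝ := max (-1) (min 1 (-2 * Real.sin (2 * Real.pi * x)))

theorem per_cont : Continuous per := by
  unfold per; fun_prop

theorem per_abs (x : ℝ) : |per x| ≤ 1 := by
  unfold per
  rw [abs_le]
  exact ⟨le_max_left _ _, max_le (by norm_num) (min_le_left _ _)⟩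

theorem per_add (x : ℝ) (n : ℤ) : per (x + n) = per x := by
  unfold per
  have : Real.sin (2 * Real.pi * (x + n)) = Real.sin (2 * Real.pi * x) := by
    have h : 2 * Real.pi * (x + n) = 2 * Real.pi * x + n * (2 * Real.pi) := by ring
    rw [h, Real.sin_add_int_mul_two_pi]
  rw [this]

theorem sin_ge_half {y : ℝ} (h1 : Real.pi / 6 ≤ y) (h2 : y ≤ 5 * Real.pi / 6) :
    1 / 2 ≤ Real.sin y := by
  have hp := Real.pi_pos
  rcases le_total y (Real.pi / 2) with h | h
  · rw [← Real.sin_pi_div_six]
    exact Real.sin_le_sin_of_le_of_le_pi_div_two (by linarith) h h1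
  · rw [← Real.sin_pi_div_six, ← Real.sin_pi_sub y]
    exact Real.sin_le_sin_of_le_of_le_pi_div_two (by linarith) (by linarith) (by linarith)

theorem per_neg {x : ℝ} (h1 : 1 / 5 ≤ x) (h2 : x ≤ 2 / 5) : per x = -1 := by
  have hp := Real.pi_pos
  have hs : 1 / 2 ≤ Real.sin (2 * Real.pi * x) := by
    apply sin_ge_half
    · nlinarith
    · nlinarith
  unfold per
  apply max_eq_left
  exact (min_le_right _ _).trans (by linarith)

theorem per_pos {x : ℝ} (h1 : 3 / 5 ≤ x) (h2 : x ≤ 4 / 5) : per x = 1 := by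
  have hp := Real.pi_pos
  have hs : 1 / 2 ≤ Real.sin (2 * Real.pi * (1 - x)) := by
    apply sin_ge_half
    · nlinarith
    · nlinarith
  have h3 : Real.sin (2 * Real.pi * (1 - x)) = - Real.sin (2 * Real.pi * x) := by
    have : 2 * Real.pi * (1 - x) = 2 * Real.pi - 2 * Real.pi * x := by ring
    rw [this, Real.sin_two_pi_sub]
  unfold per
  rw [min_eq_left (by linarith)]
  norm_num

/-- points with prescribed digits `1` or `3` in base `5`. -/
noncomputable def pt (d : ℕ → Bool) : ℕ → ℝ
  | 0 => 0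
  | (n + 1) => ((if d 0 then 3 else 1) + pt (fun k => d (k + 1)) n) / 5

theorem pt_mem (n : ℕ) : ∀ d : ℕ → Bool, 0 ≤ pt d n ∧ pt d n ≤ 1 := by
  induction n with
  | zero => intro d; simp [pt]
  | succ n ih =>
    intro d
    have := ih (fun k => d (k + 1))
    rw [pt]
    split_ifs <;> constructor <;> linarith [this.1, this.2]

theorem per_pt (n : ℕ) : ∀ (d : ℕ → Bool) (k : ℕ), k < n →
    per (5 ^ k * pt d n) = if d k then 1 else -1 := by
  induction n with
  | zero => intro d k hk; omega
  | succ n ih =>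
    intro d k hk
    have hm := pt_mem n (fun k => d (k + 1))
    cases k with
    | zero =>
      rw [pow_zero, one_mul, pt]
      by_cases h : d 0 = true
      · simp only [h, if_true]
        exact per_pos (by linarith [hm.1]) (by linarith [hm.2])
      · simp only [h, if_false]
        simp only [Bool.false_eq_true, if_false]
        exact per_neg (by linarith [hm.1]) (by linarith [hm.2])
    | succ k =>
      have h1 : (5 : ℝ) ^ (k + 1) * pt d (n + 1) =
          5 ^ k * pt (fun k => d (k + 1)) n + ((5 ^ k * (if d 0 then 3 else 1) : ℤ) : ℝ) := by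
        rw [pt, pow_succ]
        split_ifs <;> push_cast <;> ring
      rw [h1, per_add, ih _ _ (by omega)]

/-- the functions `r n`. -/
noncomputable def rr (n : ℕ) : C(Set.Icc (0 : ℝ) 1, ℝ) :=
  ⟨fun t => per (5 ^ n * t.1), by
    exact per_cont.comp (by fun_prop)⟩

theorem rr_norm (n : ℕ) : ‖rr n‖ ≤ 1 := by
  rw [ContinuousMap.norm_le _ zero_le_one]
  intro t
  exact per_abs _

theorem rr_lower (s : Finset ℕ) (c : ℕ → ℝ) :
    ∑ n ∈ s, |c n| ≤ ‖∑ n ∈ s, c n • rr n‖ := by
  classical
  obtain ⟨N, hN⟩ : ∃ N, ∀ n ∈ s, n < N := by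
    refine ⟨s.sup id + 1, fun n hn => ?_⟩
    have := Finset.le_sup (f := id) hn
    simp only [id] at this
    omega
  let d : ℕ → Bool := fun n => decide (0 ≤ c n)
  have hm := pt_mem N d
  have h := ContinuousMap.norm_coe_le_norm (∑ n ∈ s, c n • rr n) ⟨pt d N, hm.1, hm.2⟩
  refine le_trans ?_ h
  rw [ContinuousMap.sum_apply]
  refine le_trans (le_of_eq ?_) (le_abs_self _)
  refine Finset.sum_congr rfl (fun n hn => ?_)
  simp only [ContinuousMap.smul_apply, smul_eq_mul, rr, ContinuousMap.coe_mk]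
  rw [per_pt N d n (hN n hn)]
  by_cases hc : 0 ≤ c n
  · simp [d, hc, abs_of_nonneg hc]
  · simp [d, hc, abs_of_neg (not_le.mp hc)]

end Pool.Agent.Work.MP_052a41_ce_h82
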