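import Pool.Agent.Work.MP_052a41_ce_h82.FA2

/-!
# FA3: a reflexivity criterion

An unconditional boundedly complete sequence with dense span in a Banach space without `ℓ₁`
sequences.
-/

namespace Pool.Agent.Work.MP_052a41_ce_h82

open Filter Topology

/-- no bounded sequence dominates `ℓ₁`. -/
def NoL1 (Y : Type*) [NormedAddCommGroup Y] [NormedSpace ℝ Y] : Prop :=
  ∀ x : ℕ → Y, (∃ M : ℝ, ∀ n, ‖x n‖ ≤ M) → ∀ δ : ℝ, 0 < δ →
    ∃ (s : Finset ℕ) (c : ℕ → ℝ), ‖∑ i ∈ s, c i • x i‖ < δ * ∑ i ∈ s, |c i|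

section

variable {Y : Type*} [NormedAddCommGroup Y] [NormedSpace ℝ Y]
  (e : ℕ → Y) (C : ℝ) (hC : 0 ≤ C) (he0 : ∀ k, e k ≠ 0)
  (H1 : ∀ α β : ℕ →₀ ℝ, (∀ k, |β k| ≤ |α k|) →
    ‖Finsupp.linearCombination ℝ e β‖ ≤ C * ‖Finsupp.linearCombination ℝ e α‖)
include H1 he0

theorem fa_single (α : ℕ →₀ ℝ) (j : ℕ) :
    |α j| * ‖e j‖ ≤ C * ‖Finsupp.linearCombination ℝ e α‖ := by
  classical
  have h := H1 α (Finsupp.single j (α j)) (fun k => by
    by_cases hk : k = j
    · subst hk; simp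
    · rw [Finsupp.single_apply, if_neg (fun h => hk h.symm)]
      simp)
  rw [Finsupp.linearCombination_single, norm_smul, Real.norm_eq_abs] at h
  exact h

theorem fa_indep : LinearIndependent ℝ e := by
  rw [linearIndependent_iff]
  intro l hl
  ext j
  have h := fa_single e C he0 H1 l j
  rw [hl, norm_zero, mul_zero] at h
  have h1 : 0 < ‖e j‖ := norm_pos_iff.mpr (he0 j)
  have h2 : |l j| ≤ 0 := by
    by_contra hneg
    push Not at hneg
    have := mul_pos hneg h1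
    linarith
  simpa using abs_nonpos_iff.mp h2

/-- coordinate functionals. -/
theorem fa_coord (j : ℕ) : ∃ f : Y →L[ℝ] ℝ, ∀ α : ℕ →₀ ℝ,
    f (Finsupp.linearCombination ℝ e α) = α j := by
  have hli := fa_indep e C he0 H1
  set V : Submodule ℝ Y := Submodule.span ℝ (Set.range e) with hV
  let φ : V →ₗ[ℝ] ℝ := (Finsupp.lapply j : (ℕ →₀ ℝ) →ₗ[ℝ] ℝ) ∘ₗ hli.repr
  have hφ : ∀ v : V, ‖φ v‖ ≤ (C / ‖e j‖) * ‖v‖ := by
    intro v
    have h1 : 0 < ‖e j‖ := norm_pos_iff.mpr (he0 j)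
    have h := fa_single e C he0 H1 (hli.repr v) j
    rw [hli.linearCombination_repr] at h
    rw [div_mul_eq_mul_div, le_div_iff₀ h1]
    exact h
  obtain ⟨g, hg, -⟩ := exists_extension_norm_eq V (φ.mkContinuous _ hφ)
  refine ⟨g, fun α => ?_⟩
  have hm : Finsupp.linearCombination ℝ e α ∈ V := by
    rw [hV]
    exact Finsupp.mem_span_range_iff_exists_finsupp.mpr ⟨α, rfl⟩
  have h2 := hg ⟨_, hm⟩
  rw [h2]
  change (hli.repr ⟨_, hm⟩) j = α j
  rw [hli.repr_eq (l := α) rfl]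

end

section

variable {Y : Type*} [NormedAddCommGroup Y] [NormedSpace ℝ Y]
  (e : ℕ → Y) (f : ℕ → Y →L[ℝ] ℝ)

/-- partial sum operators. -/
noncomputable def SS (n : ℕ) : Y →L[ℝ] Y := ∑ k ∈ Finset.range n, (f k).smulRight (e k)

theorem SS_apply (n : ℕ) (y : Y) : SS e f n y = ∑ k ∈ Finset.range n, f k y • e k := by
  simp [SS]

end

section

variable {Y : Type*} [NormedAddCommGroup Y] [NormedSpace ℝ Y]
  (e : ℕ → Y) (C : ℝ) (hC : 0 ≤ C)
  (H1 : ∀ α β : ℕ →₀ ℝ, (∀ k, |β k| ≤ |α k|) →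
    ‖Finsupp.linearCombination ℝ e β‖ ≤ C * ‖Finsupp.linearCombination ℝ e α‖)
  (H3 : Dense (Submodule.span ℝ (Set.range e) : Set Y))
  (f : ℕ → Y →L[ℝ] ℝ) (hf : ∀ j, ∀ α : ℕ →₀ ℝ, f j (Finsupp.linearCombination ℝ e α) = α j)

include hf in
theorem SS_comb (n : ℕ) (α : ℕ →₀ ℝ) :
    SS e f n (Finsupp.linearCombination ℝ e α) =
      Finsupp.linearCombination ℝ e (α.filter (· < n)) := by
  classical
  rw [SS_apply]
  simp_rw [hf]
  rw [Finsupp.linearCombination_apply, Finsupp.sum_of_support_subset (s := Finset.range n)]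
  · refine Finset.sum_congr rfl (fun k hk => ?_)
    rw [Finsupp.filter_apply_pos (fun x => x < n) _ (Finset.mem_range.mp hk)]
  · intro k hk
    rw [Finsupp.support_filter, Finset.mem_filter] at hk
    exact Finset.mem_range.mpr hk.2
  · intro k _
    simp

include H1 H3 hf in
theorem SS_bound (n : ℕ) (y : Y) : ‖SS e f n y‖ ≤ C * ‖y‖ := by
  have hcl : IsClosed {y : Y | ‖SS e f n y‖ ≤ C * ‖y‖} :=
    isClosed_le (by fun_prop) (by fun_prop)
  have hsub : (Submodule.span ℝ (Set.range e) : Set Y) ⊆ {y : Y | ‖SS e f n y‖ ≤ C * ‖y‖} := by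
    intro v hv
    obtain ⟨α, rfl⟩ := Finsupp.mem_span_range_iff_exists_finsupp.mp hv
    change ‖SS e f n (Finsupp.linearCombination ℝ e α)‖ ≤
      C * ‖Finsupp.linearCombination ℝ e α‖
    rw [SS_comb e f hf]
    apply H1
    intro k
    by_cases hk : k < n
    · rw [Finsupp.filter_apply_pos (fun x => x < n) _ hk]
    · rw [Finsupp.filter_apply_neg (fun x => x < n) _ hk]; simp
  have h2 := (hcl.closure_subset_iff.mpr hsub)
  rw [H3.closure_eq] at h2
  exact h2 (Set.mem_univ y)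

include H1 H3 hf hC in
/-- the sequence is shrinking. -/
theorem shrink (H4 : NoL1 Y) (φ : Y →L[ℝ] ℝ) {δ : ℝ} (hδ : 0 < δ) :
    ∃ n₀, ∀ n, n₀ ≤ n → ∀ y, |φ (y - SS e f n y)| ≤ δ * ‖y‖ := by
  classical
  by_contra hcon
  push Not at hcon
  -- blocks
  have hblock : ∀ n₀ : ℕ, ∃ α : ℕ →₀ ℝ, (∀ k ∈ α.support, n₀ ≤ k) ∧
      φ (Finsupp.linearCombination ℝ e α) = 1 ∧
      ‖Finsupp.linearCombination ℝ e α‖ ≤ (1 + C) / δ := by
    intro n₀
    obtain ⟨n, hn, y, hy⟩ := hcon n₀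
    have hopen : IsOpen {y : Y | δ * ‖y‖ < |φ (y - SS e f n y)|} :=
      isOpen_lt (by fun_prop) (by fun_prop)
    obtain ⟨v, hv, hvV⟩ := H3.exists_mem_open hopen ⟨y, hy⟩
    obtain ⟨α, rfl⟩ := Finsupp.mem_span_range_iff_exists_finsupp.mp hv
    change δ * ‖Finsupp.linearCombination ℝ e α‖ <
      |φ (Finsupp.linearCombination ℝ e α - SS e f n (Finsupp.linearCombination ℝ e α))| at hvV
    set β := α - α.filter (· < n) with hβ
    have hu : Finsupp.linearCombination ℝ e α - SS e f n (Finsupp.linearCombination ℝ e α) =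
        Finsupp.linearCombination ℝ e β := by
      rw [SS_comb e f hf, hβ, map_sub]
    have hun : ‖Finsupp.linearCombination ℝ e β‖ ≤
        (1 + C) * ‖Finsupp.linearCombination ℝ e α‖ := by
      rw [← hu]
      refine (norm_sub_le _ _).trans ?_
      have := SS_bound e C H1 H3 f hf n (Finsupp.linearCombination ℝ e α)
      linarith
    rw [hu] at hvV
    set t := φ (Finsupp.linearCombination ℝ e β) with ht
    have ht0 : 0 < |t| := lt_of_le_of_lt (by positivity) hvV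
    refine ⟨t⁻¹ • β, ?_, ?_, ?_⟩
    · intro k hk
      have hk2 : k ∈ β.support := Finsupp.support_smul hk
      by_contra hlt
      push Not at hlt
      have : β k = 0 := by
        rw [hβ, Finsupp.sub_apply, Finsupp.filter_apply_pos (fun x => x < n) _ (lt_of_lt_of_le hlt hn), sub_self]
      exact (Finsupp.mem_support_iff.mp hk2) this
    · rw [map_smul, map_smul, ← ht, smul_eq_mul, inv_mul_cancel₀ (abs_pos.mp ht0)]
    · rw [map_smul, norm_smul, norm_inv, Real.norm_eq_abs, inv_mul_le_iff₀ ht0]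
      refine hun.trans ?_
      rw [mul_div_assoc', le_div_iff₀ hδ]
      nlinarith [mul_le_mul_of_nonneg_left hvV.le (by linarith : (0 : ℝ) ≤ 1 + C)]
  choose A hA1 hA2 hA3 using hblock
  -- starting points
  let N : ℕ → ℕ := fun i => Nat.rec 0 (fun _ m => max m ((A m).support.sup id + 1)) i
  have hN1 : ∀ i, N (i + 1) = max (N i) ((A (N i)).support.sup id + 1) := fun i => rfl
  have hNmono : Monotone N := monotone_nat_of_le_succ (fun i => by rw [hN1]; exact le_max_left _ _)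
  have hdisj : ∀ i j k, A (N i) k ≠ 0 → A (N j) k ≠ 0 → i = j := by
    have key : ∀ i j k, i < j → A (N i) k ≠ 0 → A (N j) k ≠ 0 → False := by
      intro i j k hij h1 h2
      have h3 : k ≤ (A (N i)).support.sup id :=
        Finset.le_sup (f := id) (Finsupp.mem_support_iff.mpr h1)
      have h4 : N (i + 1) ≤ N j := hNmono hij
      have h5 : N j ≤ k := hA1 _ _ (Finsupp.mem_support_iff.mpr h2)
      have h6 : (A (N i)).support.sup id + 1 ≤ N (i + 1) := by rw [hN1]; exact le_max_right _ _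
      omega
    intro i j k h1 h2
    rcases lt_trichotomy i j with h | h | h
    · exact (key i j k h h1 h2).elim
    · exact h
    · exact (key j i k h h2 h1).elim
  let x : ℕ → Y := fun i => Finsupp.linearCombination ℝ e (A (N i))
  obtain ⟨s, c, hsc⟩ := H4 x ⟨(1 + C) / δ, fun i => hA3 _⟩ (1 / (‖φ‖ * C + 1)) (by positivity)
  have hcomb : ∀ c' : ℕ → ℝ, ∑ i ∈ s, c' i • x i =
      Finsupp.linearCombination ℝ e (∑ i ∈ s, c' i • A (N i)) := by
    intro c'
    rw [map_sum]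
    refine Finset.sum_congr rfl (fun i _ => ?_)
    rw [map_smul]
  have h1 : ‖∑ i ∈ s, |c i| • x i‖ ≤ C * ‖∑ i ∈ s, c i • x i‖ := by
    rw [hcomb, hcomb]
    apply H1
    intro k
    rw [Finsupp.finset_sum_apply, Finsupp.finset_sum_apply]
    by_cases hex : ∃ i ∈ s, A (N i) k ≠ 0
    · obtain ⟨i, hi, hik⟩ := hex
      rw [Finset.sum_eq_single i, Finset.sum_eq_single i]
      · simp [abs_mul]
      · intro j _ hji
        have : A (N j) k = 0 := by
          by_contra hne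
          exact hji (hdisj _ _ _ hne hik)
        simp [this]
      · intro h; exact absurd hi h
      · intro j _ hji
        have : A (N j) k = 0 := by
          by_contra hne
          exact hji (hdisj _ _ _ hne hik)
        simp [this]
      · intro h; exact absurd hi h
    · push Not at hex
      rw [Finset.sum_eq_zero, Finset.sum_eq_zero]
      · intro i hi; simp [hex i hi]
      · intro i hi; simp [hex i hi]
  have h2 : φ (∑ i ∈ s, |c i| • x i) = ∑ i ∈ s, |c i| := by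
    rw [map_sum]
    refine Finset.sum_congr rfl (fun i _ => ?_)
    rw [map_smul, smul_eq_mul]
    change |c i| * φ (Finsupp.linearCombination ℝ e (A (N i))) = |c i|
    rw [hA2, mul_one]
  have h3 : ∑ i ∈ s, |c i| ≤ ‖φ‖ * ‖∑ i ∈ s, |c i| • x i‖ := by
    rw [← h2]
    exact (le_abs_self _).trans (φ.le_opNorm _)
  have h4 : ∑ i ∈ s, |c i| ≤ ‖φ‖ * C * ‖∑ i ∈ s, c i • x i‖ := by
    refine h3.trans ?_
    rw [mul_assoc]
    exact mul_le_mul_of_nonneg_left h1 (norm_nonneg _)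
  have h5 : 0 ≤ ‖φ‖ * C := by positivity
  rw [one_div, inv_mul_eq_div, lt_div_iff₀ (by positivity)] at hsc
  nlinarith [norm_nonneg (∑ i ∈ s, c i • x i)]

end

/-- **FA3**: reflexivity criterion. -/
theorem reflexive_of {Y : Type*} [NormedAddCommGroup Y] [NormedSpace ℝ Y]
    (e : ℕ → Y) (C : ℝ) (hC : 0 ≤ C) (he0 : ∀ k, e k ≠ 0)
    (H1 : ∀ α β : ℕ →₀ ℝ, (∀ k, |β k| ≤ |α k|) →
      ‖Finsupp.linearCombination ℝ e β‖ ≤ C * ‖Finsupp.linearCombination ℝ e α‖)
    (H2 : ∀ a : ℕ → ℝ, (∃ M : ℝ, ∀ n, ‖∑ k ∈ Finset.range n, a k • e k‖ ≤ M) →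
      ∃ y : Y, Tendsto (fun n => ∑ k ∈ Finset.range n, a k • e k) atTop (𝓝 y))
    (H3 : Dense (Submodule.span ℝ (Set.range e) : Set Y))
    (H4 : NoL1 Y) :
    Function.Surjective (NormedSpace.inclusionInDoubleDual ℝ Y) := by
  choose f hf using fa_coord e C he0 H1
  intro ψ
  have hpart : ∀ (φ : Y →L[ℝ] ℝ) (n : ℕ),
      φ (∑ k ∈ Finset.range n, ψ (f k) • e k) = ψ (φ.comp (SS e f n)) := by
    intro φ n
    have h1 : φ.comp (SS e f n) = ∑ k ∈ Finset.range n, φ (e k) • f k := by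
      ext y
      rw [ContinuousLinearMap.comp_apply, SS_apply, map_sum]
      simp [mul_comm]
    rw [h1, map_sum, map_sum]
    refine Finset.sum_congr rfl (fun k _ => ?_)
    rw [map_smul, map_smul, smul_eq_mul, smul_eq_mul, mul_comm]
  obtain ⟨y, hy⟩ := H2 (fun k => ψ (f k)) ⟨‖ψ‖ * C, fun n => by
    apply NormedSpace.norm_le_dual_bound ℝ _ (by positivity)
    intro φ
    rw [hpart]
    refine (ψ.le_opNorm _).trans ?_
    have h2 : ‖φ.comp (SS e f n)‖ ≤ ‖φ‖ * C := by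
      refine (φ.opNorm_comp_le _).trans ?_
      exact mul_le_mul_of_nonneg_left
        (ContinuousLinearMap.opNorm_le_bound _ hC (SS_bound e C H1 H3 f hf n)) (norm_nonneg _)
    calc ‖ψ‖ * ‖φ.comp (SS e f n)‖ ≤ ‖ψ‖ * (‖φ‖ * C) :=
          mul_le_mul_of_nonneg_left h2 (ContinuousLinearMap.opNorm_nonneg ψ)
      _ = ‖ψ‖ * C * ‖φ‖ := by ring⟩
  refine ⟨y, ?_⟩
  ext φ
  rw [NormedSpace.dual_def]
  have hlim1 : Tendsto (fun n => ψ (φ.comp (SS e f n))) atTop (𝓝 (φ y)) := by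
    have := (φ.continuous.tendsto y).comp hy
    refine this.congr (fun n => ?_)
    exact hpart φ n
  have hlim2 : Tendsto (fun n => ψ (φ.comp (SS e f n))) atTop (𝓝 (ψ φ)) := by
    have h3 : Tendsto (fun n => φ.comp (SS e f n)) atTop (𝓝 φ) := by
      rw [Metric.tendsto_atTop]
      intro ε hε
      obtain ⟨n₀, hn₀⟩ := shrink e C hC H1 H3 f hf H4 φ (half_pos hε)
      refine ⟨n₀, fun n hn => ?_⟩
      rw [dist_eq_norm]
      refine lt_of_le_of_lt (ContinuousLinearMap.opNorm_le_bound _ (half_pos hε).le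
        (fun z => ?_)) (half_lt_self hε)
      have := hn₀ n hn z
      rw [map_sub, abs_sub_comm] at this
      simpa using this
    exact (ψ.continuous.tendsto φ).comp h3
  exact tendsto_nhds_unique hlim1 hlim2

end Pool.Agent.Work.MP_052a41_ce_h82
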